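import Pool.Agent.W679.ST.Stm

set_option autoImplicit false

open MeasureTheory
open scoped BigOperators RealInnerProductSpace ENNReal

namespace W132ST
open W679ST

/-- the gauge -/
noncomputable def gg (m : ℕ) (η κ : ℝ) (x : EuclideanSpace ℝ (Fin (m + 1))) : ℝ :=
  |x 0| / η + ∑ i : Fin m, |x i.succ + κ * x 0 / η|

theorem gg_cont (m : ℕ) (η κ : ℝ) : Continuous (gg m η κ) := by
  unfold gg
  fun_prop

theorem gg_smul (m : ℕ) (η κ : ℝ) (t : ℝ) (x : EuclideanSpace ℝ (Fin (m + 1))) :
    gg m η κ (t • x) = |t| * gg m η κ x := by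
  unfold gg
  simp only [PiLp.smul_apply, smul_eq_mul]
  rw [mul_add, Finset.mul_sum, abs_mul, mul_div_assoc]
  congr 1
  refine Finset.sum_congr rfl fun i _ => ?_
  rw [← abs_mul]
  congr 1
  ring

theorem gg_add (m : ℕ) (η κ : ℝ) (hη : 0 < η) (x y : EuclideanSpace ℝ (Fin (m + 1))) :
    gg m η κ (x + y) ≤ gg m η κ x + gg m η κ y := by
  unfold gg
  simp only [PiLp.add_apply]
  have h1 : |x 0 + y 0| / η ≤ |x 0| / η + |y 0| / η := by
    rw [← add_div]
    exact div_le_div_of_nonneg_right (abs_add_le _ _) hη.le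
  have h2 : ∑ i : Fin m, |x i.succ + y i.succ + κ * (x 0 + y 0) / η| ≤
      ∑ i : Fin m, |x i.succ + κ * x 0 / η| + ∑ i : Fin m, |y i.succ + κ * y 0 / η| := by
    rw [← Finset.sum_add_distrib]
    refine Finset.sum_le_sum fun i _ => ?_
    have : x i.succ + y i.succ + κ * (x 0 + y 0) / η =
        (x i.succ + κ * x 0 / η) + (y i.succ + κ * y 0 / η) := by ring
    rw [this]
    exact abs_add_le _ _
  linarith

theorem inner_id (m : ℕ) (η κ : ℝ) (hη : 0 < η) (x z : EuclideanSpace ℝ (Fin (m + 1))) :
    inner ℝ x z = (x 0 / η) * (η * z 0 - κ * ∑ i : Fin m, z i.succ) +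
      ∑ i : Fin m, (x i.succ + κ * x 0 / η) * z i.succ := by
  rw [PiLp.inner_apply, Fin.sum_univ_succ]
  simp only [RCLike.inner_apply, conj_trivial]
  have h1 : ∑ i : Fin m, (x i.succ + κ * x 0 / η) * z i.succ =
      ∑ i : Fin m, z i.succ * x i.succ + (κ * x 0 / η) * ∑ i : Fin m, z i.succ := by
    rw [Finset.mul_sum, ← Finset.sum_add_distrib]
    exact Finset.sum_congr rfl fun i _ => by ring
  rw [h1]
  field_simp
  ring

theorem ST1 : S_ST1 := by
  intro m η κ hη hκ
  have hK : KK m η κ = {x | gg m η κ x ≤ 1} := rfl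
  have hconv : Convex ℝ (KK m η κ) := by
    rw [hK]
    intro x hx y hy a b ha hb hab
    have h1 := gg_add m η κ hη (a • x) (b • y)
    rw [gg_smul, gg_smul, abs_of_nonneg ha, abs_of_nonneg hb] at h1
    simp only [Set.mem_ofPred_eq] at hx hy ⊢
    nlinarith
  have hclosed : IsClosed (KK m η κ) := by
    rw [hK]
    exact isClosed_le (gg_cont m η κ) continuous_const
  have hzero : gg m η κ 0 = 0 := by
    have := gg_smul m η κ 0 0
    simpa using this
  have hbdd : Bornology.IsBounded (KK m η κ) := by
    rw [isBounded_iff_forall_norm_le]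
    refine ⟨η + m * (1 + κ), fun x hx => ?_⟩
    have hx' : |x 0| / η + ∑ i : Fin m, |x i.succ + κ * x 0 / η| ≤ 1 := hx
    have hs0 : 0 ≤ ∑ i : Fin m, |x i.succ + κ * x 0 / η| :=
      Finset.sum_nonneg fun i _ => abs_nonneg _
    have h0 : |x 0| / η ≤ 1 := by linarith
    have h0' : |x 0| ≤ η := by
      rw [div_le_one hη] at h0
      exact h0
    have hq0 : 0 ≤ |x 0| / η := div_nonneg (abs_nonneg _) hη.le
    have hi : ∀ i : Fin m, |x i.succ| ≤ 1 + κ := by
      intro i
      have h1 : |x i.succ + κ * x 0 / η| ≤ ∑ i : Fin m, |x i.succ + κ * x 0 / η| :=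
        Finset.single_le_sum (f := fun i : Fin m => |x i.succ + κ * x 0 / η|)
          (fun i _ => abs_nonneg _) (Finset.mem_univ i)
      have h2 : |x i.succ| ≤ |x i.succ + κ * x 0 / η| + |κ * x 0 / η| := by
        have := abs_sub (x i.succ + κ * x 0 / η) (κ * x 0 / η)
        simpa using this
      have h3 : |κ * x 0 / η| = κ * (|x 0| / η) := by
        rw [abs_div, abs_mul, abs_of_nonneg hκ, abs_of_pos hη, mul_div_assoc]
      rw [h3] at h2
      have h4 : κ * (|x 0| / η) ≤ κ := by nlinarith
      linarith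
    -- norm ≤ sum of coordinates
    have hn : ‖x‖ ≤ ∑ j : Fin (m + 1), |x j| := by
      rw [EuclideanSpace.norm_eq]
      refine Real.sqrt_le_iff.mpr ⟨Finset.sum_nonneg fun i _ => abs_nonneg _, ?_⟩
      simp only [Real.norm_eq_abs]
      exact Finset.sum_sq_le_sq_sum_of_nonneg (fun i _ => abs_nonneg _)
    rw [Fin.sum_univ_succ] at hn
    have h5 : ∑ i : Fin m, |x i.succ| ≤ m * (1 + κ) := by
      calc ∑ i : Fin m, |x i.succ| ≤ ∑ _i : Fin m, (1 + κ) := Finset.sum_le_sum fun i _ => hi i
        _ = m * (1 + κ) := by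
            rw [Finset.sum_const, Finset.card_univ, Fintype.card_fin, nsmul_eq_mul]
    linarith
  have hcomp : IsCompact (KK m η κ) := Metric.isCompact_of_isClosed_isBounded hclosed hbdd
  have hne : (KK m η κ).Nonempty := ⟨0, by rw [hK]; simp [hzero]⟩
  have hsym : ∀ x ∈ KK m η κ, -x ∈ KK m η κ := by
    intro x hx
    rw [hK] at hx ⊢
    have := gg_smul m η κ (-1) x
    simp only [neg_smul, one_smul, abs_neg, abs_one, one_mul] at this
    simpa [this] using hx
  have hint : (interior (KK m η κ)).Nonempty := by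
    refine ⟨0, ?_⟩
    rw [mem_interior]
    refine ⟨{x | gg m η κ x < 1}, ?_, isOpen_lt (gg_cont m η κ) continuous_const, ?_⟩
    · intro x hx
      rw [hK]
      have hx' : gg m η κ x < 1 := hx
      exact hx'.le
    · simp [hzero]
  refine ⟨hconv, hcomp, hne, hsym, hint, ?_⟩
  ext z
  constructor
  · intro hz
    have hz' : ∀ x, gg m η κ x ≤ 1 → inner ℝ x z ≤ (1 : ℝ) := hz
    constructor
    · intro i
      have hgi : gg m η κ (EuclideanSpace.single i.succ (1 : ℝ)) = 1 := by
        unfold gg
        have h0 : (EuclideanSpace.single i.succ (1 : ℝ) : EuclideanSpace ℝ (Fin (m + 1))) 0 = 0 := by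
          rw [PiLp.single_apply]
          simp [(Fin.succ_ne_zero i).symm]
        rw [h0]
        simp only [abs_zero, zero_div, mul_zero, add_zero, zero_add, PiLp.single_apply,
          Fin.succ_inj]
        rw [Finset.sum_eq_single i]
        · simp
        · intro b _ hb
          simp [hb]
        · simp
      have hin : inner ℝ (EuclideanSpace.single i.succ (1 : ℝ)) z = z i.succ := by
        simp [EuclideanSpace.inner_single_left]
      rw [abs_le]
      constructor
      · have h1 := hz' (-(EuclideanSpace.single i.succ (1 : ℝ))) (by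
          have := gg_smul m η κ (-1) (EuclideanSpace.single i.succ (1 : ℝ))
          simp only [neg_smul, one_smul, abs_neg, abs_one, one_mul] at this
          rw [this, hgi])
        rw [inner_neg_left, hin] at h1
        linarith
      · have h1 := hz' (EuclideanSpace.single i.succ (1 : ℝ)) (by rw [hgi])
        rw [hin] at h1
        exact h1
    · -- vector `w = η e_0 - κ Σ e_{i+1}`
      set w : EuclideanSpace ℝ (Fin (m + 1)) :=
        WithLp.toLp 2 (Fin.cons η (fun _ => -κ)) with hw
      have hw0 : w 0 = η := by simp [hw]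
      have hws : ∀ i : Fin m, w i.succ = -κ := fun i => by simp [hw]
      have hgw : gg m η κ w = 1 := by
        unfold gg
        rw [hw0, abs_of_pos hη, div_self hη.ne']
        have : ∀ i : Fin m, |w i.succ + κ * η / η| = 0 := by
          intro i
          rw [hws i, mul_div_assoc, div_self hη.ne']
          simp
        simp [this]
      have hin : inner ℝ w z = η * z 0 - κ * ∑ i : Fin m, z i.succ := by
        rw [inner_id m η κ hη, hw0, div_self hη.ne', one_mul]
        have : ∀ i : Fin m, (w i.succ + κ * η / η) * z i.succ = 0 := by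
          intro i
          rw [hws i, mul_div_assoc, div_self hη.ne']
          simp
        simp [this]
      rw [abs_le]
      constructor
      · have h1 := hz' (-w) (by
          have := gg_smul m η κ (-1) w
          simp only [neg_smul, one_smul, abs_neg, abs_one, one_mul] at this
          rw [this, hgw])
        rw [inner_neg_left, hin] at h1
        linarith
      · have h1 := hz' w (by rw [hgw])
        rw [hin] at h1
        exact h1
  · rintro ⟨hz1, hz2⟩ x hx
    have hx' : |x 0| / η + ∑ i : Fin m, |x i.succ + κ * x 0 / η| ≤ 1 := hx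
    rw [inner_id m η κ hη]
    have h1 : (x 0 / η) * (η * z 0 - κ * ∑ i : Fin m, z i.succ) ≤ |x 0| / η := by
      calc (x 0 / η) * (η * z 0 - κ * ∑ i : Fin m, z i.succ)
          ≤ |(x 0 / η) * (η * z 0 - κ * ∑ i : Fin m, z i.succ)| := le_abs_self _
        _ = (|x 0| / η) * |η * z 0 - κ * ∑ i : Fin m, z i.succ| := by
            rw [abs_mul, abs_div, abs_of_pos hη]
        _ ≤ (|x 0| / η) * 1 :=
            mul_le_mul_of_nonneg_left hz2 (div_nonneg (abs_nonneg _) hη.le)
        _ = |x 0| / η := mul_one _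
    have h2 : ∑ i : Fin m, (x i.succ + κ * x 0 / η) * z i.succ ≤
        ∑ i : Fin m, |x i.succ + κ * x 0 / η| := by
      refine Finset.sum_le_sum fun i _ => ?_
      calc (x i.succ + κ * x 0 / η) * z i.succ
          ≤ |(x i.succ + κ * x 0 / η) * z i.succ| := le_abs_self _
        _ = |x i.succ + κ * x 0 / η| * |z i.succ| := abs_mul _ _
        _ ≤ |x i.succ + κ * x 0 / η| * 1 :=
            mul_le_mul_of_nonneg_left (hz1 i) (abs_nonneg _)
        _ = |x i.succ + κ * x 0 / η| := mul_one _
    linarith

end W132ST
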